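import Pool.Agent.H40.Span

open Pool.Agent.H40.Span in
theorem Pool.Agent.Results.MP_593d43_lc.LowSpan.result :
    ∃ (m n : ℕ) (K : Type) (_ : Field K) (_ : Fintype K) (α : K) (g : K → ZMod 2) (c : ZMod 2)
      (r : Fin m → ℕ) (s : ℕ → ZMod 2),
      1 ≤ m ∧ m < n ∧ Fintype.card K = 2 ^ m ∧ orderOf α = 2 ^ m - 1 ∧ Orth g ∧
      (¬ ∀ x y, g (x + y) = g x + g y + g 0) ∧ StrictMono r ∧ (∀ j, 0 < r j ∧ r j < n) ∧
      (∀ k, s (k + n) = c + s k + g (∑ j : Fin m, ((s (k + r j)).val : K) * α ^ (j : ℕ))) ∧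
      IsSpan n s ∧ linSpan s < 2 ^ n - 2 - 3 * n :=
  ⟨9, 10, K, isField.toField, inferInstance, al, g, 0, fun j => j + 1, sq, by norm_num,
    by norm_num, card, order, orth, nonaff, fun _ _ h => Nat.succ_lt_succ h,
    fun j => ⟨Nat.succ_pos _, Nat.succ_lt_succ j.2⟩, recur, span, lin.trans_lt (by norm_num)⟩
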